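import Pool.Agent.H.MP_e6e34a_mp.Defs

set_option autoImplicit false

namespace Pool.Agent.H.MP_e6e34a_mp

open Matrix Complex
open scoped Kronecker

lemma kron_vec {d : ℕ} (a b : Fin d → ℂ) :
    vecMulVec a (star a) ⊗ₖ vecMulVec b (star b) =
      vecMulVec (fun j : Fin d × Fin d => a j.1 * b j.2) (star (fun j : Fin d × Fin d => a j.1 * b j.2)) := by
  ext ⟨i, j⟩ ⟨k, l⟩
  simp [vecMulVec_apply, kroneckerMap_apply]
  ring

lemma tr_vv {ι : Type} [Fintype ι] (p z : ι → ℂ) :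
    trace (vecMulVec p (star p) * vecMulVec z (star z)) =
      ((‖star p ⬝ᵥ z‖ ^ 2 : ℝ) : ℂ) := by
  rw [vecMulVec_mul_vecMulVec, trace_vecMulVec, dotProduct_smul]
  have : p ⬝ᵥ star z = star (star p ⬝ᵥ z) := by
    rw [dotProduct_star, dotProduct_comm]
  rw [this, smul_eq_mul]
  push_cast
  rw [← Complex.mul_conj']
  rfl

lemma phi_dot {d : ℕ} (a b : Fin d → ℂ) :
    star (phi d) ⬝ᵥ (fun j : Fin d × Fin d => a j.1 * b j.2) =
      ((1 / √(d : ℝ) : ℝ) : ℂ) * ∑ j, a j * b j := by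
  simp only [dotProduct, phi, Fintype.sum_prod_type, Pi.star_apply, Finset.mul_sum]
  refine Finset.sum_congr rfl fun i _ => ?_
  rw [Finset.sum_eq_single i]
  · simp
  · intro j _ hj
    simp [hj.symm]
  · simp

lemma beh_eq {d : ℕ} (hd : 0 < d) (u w : Fin 2 → Fin d → Fin d → ℂ) (v : ℝ) (x y : Fin 2) (a b : Fin d)
    (hu : star (u x a) ⬝ᵥ u x a = 1) (hw : star (w y b) ⬝ᵥ w y b = 1) :
    beh u w v x y a b = v * (‖∑ j, u x a j * w y b j‖ ^ 2 / d) + (1 - v) / (d : ℝ) ^ 2 := by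
  have hd' : (0 : ℝ) < d := by exact_mod_cast hd
  unfold beh rho
  rw [Matrix.add_mul, Matrix.smul_mul, Matrix.smul_mul, trace_add, trace_smul, trace_smul, Matrix.one_mul,
    trace_kronecker, trace_vecMulVec, trace_vecMulVec, dotProduct_comm (u x a), dotProduct_comm (w y b), hu, hw,
    kron_vec, tr_vv, phi_dot, norm_mul, mul_pow]
  have h1 : ‖((1 / √(d : ℝ) : ℝ) : ℂ)‖ ^ 2 = 1 / d := by
    rw [Complex.norm_real, Real.norm_eq_abs, sq_abs, div_pow, Real.sq_sqrt hd'.le, one_pow]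
  rw [h1, smul_eq_mul, smul_eq_mul, ← Complex.ofReal_mul, mul_one, mul_one, ← Complex.ofReal_add, Complex.ofReal_re]
  ring

/-! local behaviours -/

lemma det_local {d : ℕ} (f g : Fin 2 → Fin d) :
    IsLocal (fun x y a b => if a = f x ∧ b = g y then (1 : ℝ) else 0) :=
  subset_convexHull ℝ _ ⟨f, g, rfl⟩

lemma mix_local {d : ℕ} {ι : Type} [Fintype ι] (c : ι → ℝ) (p : ι → Fin 2 → Fin 2 → Fin d → Fin d → ℝ)
    (h0 : ∀ i, 0 ≤ c i) (h1 : ∑ i, c i = 1) (hp : ∀ i, IsLocal (p i)) :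
    IsLocal (fun x y a b => ∑ i, c i * p i x y a b) := by
  have := (convex_convexHull ℝ _).sum_mem (t := Finset.univ) (fun i _ => h0 i) h1 (fun i _ => hp i)
  unfold IsLocal
  convert this using 1
  ext x y a b
  simp [Finset.sum_apply]

lemma local_bound {d : ℕ} (F : Fin 2 → Fin 2 → Fin d → Fin d → ℝ) (B : ℝ)
    (h : ∀ f g : Fin 2 → Fin d, ∑ x, ∑ y, F x y (f x) (g y) ≤ B)
    (p : Fin 2 → Fin 2 → Fin d → Fin d → ℝ) (hp : IsLocal p) :
    ∑ x, ∑ y, ∑ a, ∑ b, p x y a b * F x y a b ≤ B := by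
  have hc : Convex ℝ {p : Fin 2 → Fin 2 → Fin d → Fin d → ℝ |
      ∑ x, ∑ y, ∑ a, ∑ b, p x y a b * F x y a b ≤ B} := by
    apply convex_halfSpace_le
    constructor
    · intro p q
      simp [add_mul, Finset.sum_add_distrib]
    · intro c p
      simp only [Pi.smul_apply, smul_eq_mul, Finset.mul_sum, mul_assoc]
  refine convexHull_min ?_ hc hp
  rintro q ⟨f, g, rfl⟩
  simp only [Set.mem_ofPred_eq]
  refine le_trans (le_of_eq ?_) (h f g)
  refine Finset.sum_congr rfl fun x _ => Finset.sum_congr rfl fun y _ => ?_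
  rw [Finset.sum_eq_single (f x), Finset.sum_eq_single (g y)]
  · simp
  · intro b _ hb; simp [hb]
  · simp
  · intro a _ ha; simp [ha]
  · simp

end Pool.Agent.H.MP_e6e34a_mp
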