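import Pool.Agent.H.MP_e6e34a_mp.A

set_option autoImplicit false

namespace Pool.Agent.H.MP_e6e34a_mp

open Matrix Complex

variable {d : ℕ} [NeZero d]

lemma dpos : (0 : ℝ) < d := by exact_mod_cast Nat.pos_of_ne_zero (NeZero.ne d)

lemma diff_local (D : Fin 2 → Fin 2 → Fin d) (hD : D 1 1 = D 0 1 + D 1 0 - D 0 0) :
    IsLocal (fun x y a b => if a - b = D x y then (1 / d : ℝ) else 0) := by
  have hd := dpos (d := d)
  set k : Fin 2 → Fin d := ![0, D 1 0 - D 0 0] with hk
  set l : Fin 2 → Fin d := ![-D 0 0, -D 0 1] with hl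
  have hkl : ∀ x y, k x - l y = D x y := by
    intro x y
    fin_cases x <;> fin_cases y <;> simp [hk, hl, hD]
    abel
  have := mix_local (fun _ : Fin d => (1 / d : ℝ))
    (fun s x y a b => if a = (fun x => s + k x) x ∧ b = (fun y => s + l y) y then (1 : ℝ) else 0)
    (fun _ => by positivity) (by simp) (fun s => det_local _ _)
  convert this using 5 with x y a b
  rw [Finset.sum_eq_single (a - k x)]
  · rw [← hkl]
    by_cases h : a - b = k x - l y
    · have : b = a - k x + l y := by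
        have : b = a - (k x - l y) := by rw [← h]; abel
        rw [this]; abel
      rw [if_pos h, if_pos ⟨by simp, this⟩, mul_one]
    · rw [if_neg h, if_neg, mul_zero]
      rintro ⟨-, h2⟩
      apply h
      simp only at h2
      rw [h2]; abel
  · intro s _ hs
    rw [if_neg, mul_zero]
    rintro ⟨h1, -⟩
    apply hs
    simp only at h1
    rw [h1]; abel
  · simp

lemma half_local (x0 : Fin 2) (r : Fin 2 → Fin d → ℝ) (h0 : ∀ y e, 0 ≤ r y e) (h1 : ∀ y, ∑ e, r y e = 1) :
    IsLocal (fun x y a b => if x = x0 then r y (a - b) / d else 1 / (d : ℝ) ^ 2) := by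
  have hd := dpos (d := d)
  set D : Fin d × Fin d × Fin d → Fin 2 → Fin 2 → Fin d := fun z x y =>
    if x = x0 then (if y = 0 then z.1 else z.2.1) else (if y = 0 then z.2.2 else z.2.2 + z.2.1 - z.1) with hD
  have := mix_local (fun z : Fin d × Fin d × Fin d => r 0 z.1 * (r 1 z.2.1 * (1 / d : ℝ)))
    (fun z x y a b => if a - b = D z x y then (1 / d : ℝ) else 0)
    (fun z => mul_nonneg (h0 _ _) (mul_nonneg (h0 _ _) (by positivity)))
    (by
      have e : ∑ _t : Fin d, (1 / d : ℝ) = 1 := by simp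
      simp only [Fintype.sum_prod_type, ← Finset.mul_sum, e, mul_one, h1])
    (fun z => diff_local _ (by
      fin_cases x0 <;> simp [hD]
      abel))
  convert this using 5 with x y a b
  simp only [Fintype.sum_prod_type, hD]
  have key : ∀ c e : Fin d, ∑ t : Fin d, (if c = t + e then (1 / d : ℝ) else 0) = 1 / d := by
    intro c e
    rw [Finset.sum_eq_single (c - e)]
    · simp
    · intro t _ ht
      rw [if_neg]; intro h; apply ht; rw [h]; abel
    · simp
  by_cases hx : x = x0
  · simp only [hx, if_true]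
    by_cases hy : y = 0
    · subst hy
      simp only [if_true, mul_assoc, ← Finset.mul_sum, ← Finset.sum_mul, h1]
      simp
      field_simp
    · have : y = 1 := by omega
      subst this
      simp only [hy, if_false, mul_assoc, ← Finset.mul_sum, ← Finset.sum_mul, h1]
      simp
      field_simp
  · simp only [hx, if_false]
    by_cases hy : y = 0
    · subst hy
      simp only [if_true, mul_assoc, ← Finset.mul_sum, ← Finset.sum_mul, h1]
      simp
      field_simp
    · simp only [hy, if_false, mul_assoc, ← Finset.mul_sum, add_sub_assoc, key, ← Finset.sum_mul, h1]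
      field_simp

/-- the local model -/
lemma model_local (Q : Fin 2 → Fin 2 → Fin d → ℝ) (m s : Fin 2 → Fin 2 → Fin d) (c v : ℝ)
    (hc : 0 ≤ c) (hc4 : 4 * c < 1) (hv : 0 ≤ v) (hv1 : v * (2 - 4 * c) ≤ 1)
    (hQ0 : ∀ x y e, 0 ≤ Q x y e) (hQ1 : ∀ x y, ∑ e, Q x y e = 1)
    (hm : ∀ x y, 3 * c ≤ Q x y (m x y)) (hs : ∀ x y, c ≤ Q x y (s x y)) (hms : ∀ x y, m x y ≠ s x y)
    (hD : ∀ x0 y0, (fun x y => if x = x0 ∧ y = y0 then s x y else m x y) 1 1 =
      (fun x y => if x = x0 ∧ y = y0 then s x y else m x y) 0 1 +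
      (fun x y => if x = x0 ∧ y = y0 then s x y else m x y) 1 0 -
      (fun x y => if x = x0 ∧ y = y0 then s x y else m x y) 0 0) :
    IsLocal (fun x y a b => v * (Q x y (a - b) / d) + (1 - v) / (d : ℝ) ^ 2) := by
  have hd := dpos (d := d)
  have h4 : 0 < 1 - 4 * c := by linarith
  set r : Fin 2 → Fin 2 → Fin d → ℝ := fun x y e =>
    (Q x y e - (if e = m x y then 3 * c else 0) - (if e = s x y then c else 0)) / (1 - 4 * c) with hr
  have hr0 : ∀ x y e, 0 ≤ r x y e := by
    intro x y e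
    apply div_nonneg _ h4.le
    by_cases h1 : e = m x y
    · have h2 : e ≠ s x y := by rw [h1]; exact hms x y
      rw [if_pos h1, if_neg h2, h1]; linarith [hm x y]
    · by_cases h2 : e = s x y
      · rw [if_neg h1, if_pos h2, h2]; linarith [hs x y]
      · rw [if_neg h1, if_neg h2]; linarith [hQ0 x y e]
  have hr1 : ∀ x y, ∑ e, r x y e = 1 := by
    intro x y
    simp only [hr, ← Finset.sum_div, Finset.sum_sub_distrib, hQ1]
    rw [div_eq_one_iff_eq h4.ne']
    simp
    ring
  obtain ⟨P1, hP1, L1⟩ : ∃ P : Fin 2 → Fin 2 → Fin 2 → Fin 2 → Fin d → Fin d → ℝ,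
      (∀ x0 y0 x y a b, P x0 y0 x y a b =
        if a - b = (if x = x0 ∧ y = y0 then s x y else m x y) then (1 / d : ℝ) else 0) ∧
      ∀ x0 y0, IsLocal (P x0 y0) :=
    ⟨_, fun _ _ _ _ _ _ => rfl, fun x0 y0 =>
      diff_local (d := d) (fun x y => if x = x0 ∧ y = y0 then s x y else m x y) (hD x0 y0)⟩
  obtain ⟨P2, hP2, L2⟩ : ∃ P : Fin 2 → Fin 2 → Fin 2 → Fin d → Fin d → ℝ,
      (∀ x0 x y a b, P x0 x y a b = if x = x0 then r x0 y (a - b) / d else 1 / (d : ℝ) ^ 2) ∧
      ∀ x0, IsLocal (P x0) :=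
    ⟨_, fun _ _ _ _ _ => rfl, fun x0 => half_local (d := d) x0 (r x0) (hr0 x0) (hr1 x0)⟩
  obtain ⟨P3, hP3, L3⟩ : ∃ P : Fin 2 → Fin 2 → Fin d → Fin d → ℝ,
      (∀ x y a b, P x y a b = 1 / (d : ℝ) ^ 2) ∧ IsLocal P := by
    refine ⟨_, ?_, half_local (d := d) 0 (fun _ _ => (1 / d : ℝ)) (fun _ _ => by positivity) (fun _ => by simp)⟩
    intro x y a b
    split_ifs
    · field_simp
    · rfl
  have := mix_local ![v * c, v * c, v * c, v * c, v * (1 - 4 * c), v * (1 - 4 * c), 1 - v * (2 - 4 * c)]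
    ![P1 0 0, P1 0 1, P1 1 0, P1 1 1, P2 0, P2 1, P3]
    (by
      intro i
      fin_cases i <;> simp <;> first | positivity | linarith)
    (by simp [Fin.sum_univ_succ]; ring)
    (by
      intro i
      fin_cases i
      exacts [L1 0 0, L1 0 1, L1 1 0, L1 1 1, L2 0, L2 1, L3])
  convert this using 5 with x y a b
  have hQ : Q x y (a - b) = (1 - 4 * c) * r x y (a - b) + (if a - b = m x y then 3 * c else 0) +
      (if a - b = s x y then c else 0) := by
    simp only [hr]; rw [mul_div_cancel₀ _ h4.ne']; ring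
  rw [hQ]
  clear_value r
  simp only [Fin.sum_univ_succ, Matrix.cons_val_zero, Matrix.cons_val_succ, Finset.univ_eq_empty, Finset.sum_empty,
    hP1, hP2, hP3]
  generalize a - b = e
  fin_cases x <;> fin_cases y <;> simp <;> split_ifs <;> field_simp <;> ring

end Pool.Agent.H.MP_e6e34a_mp
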