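import Pool.Agent.H.MP_e6e34a_mp.B

set_option autoImplicit false

namespace Pool.Agent.H.MP_e6e34a_mp

open Matrix Complex

variable {d : ℕ} [NeZero d]

noncomputable def S (d : ℕ) (t : ℝ) : ℂ := ∑ j : Fin d, exp (((-2 * Real.pi * t / d : ℝ) : ℂ) * I) ^ (j : ℕ)

omit [NeZero d] in
lemma S_eq (t : ℝ) : S d t = ∑ j : Fin d, exp (-2 * Real.pi * I * (j : ℕ) * t / d) := by
  unfold S
  refine Finset.sum_congr rfl fun j _ => ?_
  rw [← Complex.exp_nat_mul]
  congr 1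
  push_cast
  ring

lemma S_geom (t : ℝ) : S d t * (exp (((-2 * Real.pi * t / d : ℝ) : ℂ) * I) - 1) =
    exp (((-2 * Real.pi * t : ℝ) : ℂ) * I) - 1 := by
  have hd : (d : ℂ) ≠ 0 := by exact_mod_cast NeZero.ne d
  unfold S
  rw [Fin.sum_univ_eq_sum_range (fun j => exp (((-2 * Real.pi * t / d : ℝ) : ℂ) * I) ^ j), geom_sum_mul,
    ← Complex.exp_nat_mul]
  congr 2
  push_cast
  field_simp

lemma S_per (t : ℝ) (k : ℤ) : S d (t + d * k) = S d t := by
  have hd : (d : ℂ) ≠ 0 := by exact_mod_cast NeZero.ne d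
  unfold S
  have : exp (((-2 * Real.pi * (t + d * k) / d : ℝ) : ℂ) * I) = exp (((-2 * Real.pi * t / d : ℝ) : ℂ) * I) := by
    rw [Complex.exp_eq_exp_iff_exists_int]
    refine ⟨-k, ?_⟩
    push_cast
    field_simp
    ring
  rw [this]

omit [NeZero d] in
lemma S_zero : S d 0 = d := by simp [S]

lemma S_int (n : ℤ) (h0 : n ≠ 0) (h1 : |n| < d) : S d n = 0 := by
  have hd : (d : ℂ) ≠ 0 := by exact_mod_cast NeZero.ne d
  have h := S_geom (d := d) n
  have e1 : exp (((-2 * Real.pi * (n : ℝ) : ℝ) : ℂ) * I) = 1 := by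
    rw [Complex.exp_eq_one_iff]
    exact ⟨-n, by push_cast; ring⟩
  rw [e1, sub_self, mul_eq_zero] at h
  refine h.resolve_right ?_
  rw [sub_eq_zero, Complex.exp_eq_one_iff]
  rintro ⟨k, hk⟩
  have hpi : (Real.pi : ℂ) ≠ 0 := by exact_mod_cast Real.pi_ne_zero
  have : (n : ℂ) = d * (-k) := by
    push_cast at hk
    field_simp at hk
    linear_combination -hk
  have h2 : n = d * (-k) := by exact_mod_cast this
  have h3 : (d : ℤ) ∣ n := ⟨_, h2⟩
  exact h0 (Int.eq_zero_of_abs_lt_dvd h3 h1)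

lemma S_diff (a b : Fin d) : S d (((a : ℕ) : ℝ) - (b : ℕ)) = if a = b then (d : ℂ) else 0 := by
  split_ifs with h
  · rw [h, sub_self, S_zero]
  · have := S_int (d := d) (((a : ℕ) : ℤ) - (b : ℕ)) (by
      intro h2; apply h; ext; omega) (by have := a.2; have := b.2; rw [abs_lt]; constructor <;> omega)
    push_cast at this
    exact this

lemma S_low (t : ℝ) (h : Real.cos (2 * Real.pi * t) = 0) : 2 ≤ ‖S d t‖ ^ 2 * (2 * Real.pi * t / d) ^ 2 := by
  have h1 := congrArg (fun z : ℂ => ‖z‖ ^ 2) (S_geom (d := d) t)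
  simp only [norm_mul, mul_pow] at h1
  have h2 : ‖exp (((-2 * Real.pi * t : ℝ) : ℂ) * I) - 1‖ ^ 2 = 2 := by
    rw [Complex.sq_norm, Complex.normSq_apply]
    simp only [sub_re, sub_im, exp_ofReal_mul_I_re, exp_ofReal_mul_I_im, one_re, one_im]
    have e : -2 * Real.pi * t = -(2 * Real.pi * t) := by ring
    rw [e, Real.cos_neg, Real.sin_neg, h]
    have := Real.sin_sq_add_cos_sq (2 * Real.pi * t)
    rw [h] at this
    nlinarith
  have h3 : ‖exp (((-2 * Real.pi * t / d : ℝ) : ℂ) * I) - 1‖ ^ 2 ≤ (2 * Real.pi * t / d) ^ 2 := by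
    have := Real.norm_exp_I_mul_ofReal_sub_one_le (x := -2 * Real.pi * t / d)
    rw [mul_comm] at this
    calc _ ≤ ‖-2 * Real.pi * t / d‖ ^ 2 := by gcongr
      _ = _ := by rw [Real.norm_eq_abs, sq_abs]; ring
  rw [h2] at h1
  calc (2 : ℝ) = _ := h1.symm
    _ ≤ _ := by gcongr

lemma S_parseval (θ : ℝ) : ∑ e : Fin d, ‖S d ((e : ℕ) + θ)‖ ^ 2 = (d : ℝ) ^ 2 := by
  have hd : (d : ℂ) ≠ 0 := by exact_mod_cast NeZero.ne d
  have key : ∀ e : Fin d, ((‖S d ((e : ℕ) + θ)‖ ^ 2 : ℝ) : ℂ) = ∑ j : Fin d, ∑ k : Fin d,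
      exp (-2 * Real.pi * I * θ * (((j : ℕ) : ℂ) - (k : ℕ)) / d) *
        exp (-2 * Real.pi * I * (e : ℕ) * ((((j : ℕ) : ℝ) - (k : ℕ) : ℝ) : ℂ) / d) := by
    intro e
    push_cast
    rw [← Complex.mul_conj', S_eq, map_sum, Finset.sum_mul_sum]
    refine Finset.sum_congr rfl fun j _ => Finset.sum_congr rfl fun k _ => ?_
    rw [← Complex.exp_conj, ← Complex.exp_add, ← Complex.exp_add]
    congr 1
    simp [map_ofNat]
    ring
  have : ((∑ e : Fin d, ‖S d ((e : ℕ) + θ)‖ ^ 2 : ℝ) : ℂ) = (((d : ℝ) ^ 2 : ℝ) : ℂ) := by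
    rw [Complex.ofReal_sum]
    simp only [key]
    rw [Finset.sum_comm]
    have : ∀ j : Fin d, ∑ e : Fin d, ∑ k : Fin d,
      exp (-2 * Real.pi * I * θ * (((j : ℕ) : ℂ) - (k : ℕ)) / d) *
        exp (-2 * Real.pi * I * (e : ℕ) * ((((j : ℕ) : ℝ) - (k : ℕ) : ℝ) : ℂ) / d) = d := by
      intro j
      rw [Finset.sum_comm]
      simp only [← Finset.mul_sum, ← S_eq, S_diff]
      simp
    simp only [this]
    simp [sq]
  exact_mod_cast this

noncomputable def th : Fin 2 → Fin 2 → ℝ := ![![1 / 4, 3 / 4], ![-1 / 4, 1 / 4]]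

omit [NeZero d] in
lemma sq_c (hd : 0 < d) : ((1 / √(d : ℝ) : ℝ) : ℂ) * ((1 / √(d : ℝ) : ℝ) : ℂ) = 1 / d := by
  have hd' : (0 : ℝ) ≤ d := by positivity
  rw [← Complex.ofReal_mul, div_mul_div_comm, Real.mul_self_sqrt hd']
  push_cast
  ring

lemma dkz_sum (x y : Fin 2) (a b : Fin d) :
    ∑ j, dkzA d x a j * dkzB d y b j = 1 / d * S d (((a - b : Fin d) : ℕ) + th x y) := by
  have h := Fin.intCast_val_sub_eq_sub_add_ite a b
  have h2 : (((a - b : Fin d) : ℕ) : ℝ) + th x y =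
      (((a : ℕ) : ℝ) - (b : ℕ) + th x y) + d * ((if b ≤ a then 0 else 1 : ℤ) : ℝ) := by
    have h3 : ((((a - b : Fin d) : ℕ) : ℤ) : ℝ) = _ := congrArg (fun z : ℤ => (z : ℝ)) h
    split_ifs at h3 ⊢ <;> push_cast at h3 ⊢ <;> linarith
  rw [h2, S_per, S_eq, Finset.mul_sum]
  refine Finset.sum_congr rfl fun j _ => ?_
  unfold dkzA dkzB
  rw [mul_mul_mul_comm, sq_c (Nat.pos_of_ne_zero (NeZero.ne d)), ← Complex.exp_add]
  congr 2
  fin_cases x <;> fin_cases y <;> simp [th] <;> ring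

lemma dkzA_onb (x : Fin 2) : IsONB (dkzA d x) := by
  intro a a'
  have hd : (d : ℂ) ≠ 0 := by exact_mod_cast NeZero.ne d
  have : star (dkzA d x a) ⬝ᵥ dkzA d x a' = 1 / d * S d (((a' : ℕ) : ℝ) - (a : ℕ)) := by
    rw [S_eq, Finset.mul_sum]
    refine Finset.sum_congr rfl fun j _ => ?_
    unfold dkzA
    rw [Pi.star_apply, star_mul', mul_mul_mul_comm, Complex.star_def, Complex.conj_ofReal,
      sq_c (Nat.pos_of_ne_zero (NeZero.ne d)), ← Complex.exp_conj, ← Complex.exp_add]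
    congr 2
    fin_cases x <;> simp [map_ofNat] <;> ring
  rw [this, S_diff]
  by_cases h : a = a'
  · simp [h, hd]
  · simp [h, Ne.symm h]

lemma dkzB_onb (x : Fin 2) : IsONB (dkzB d x) := by
  intro a a'
  have hd : (d : ℂ) ≠ 0 := by exact_mod_cast NeZero.ne d
  have : star (dkzB d x a) ⬝ᵥ dkzB d x a' = 1 / d * S d (((a : ℕ) : ℝ) - (a' : ℕ)) := by
    rw [S_eq, Finset.mul_sum]
    refine Finset.sum_congr rfl fun j _ => ?_
    unfold dkzB
    rw [Pi.star_apply, star_mul', mul_mul_mul_comm, Complex.star_def, Complex.conj_ofReal,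
      sq_c (Nat.pos_of_ne_zero (NeZero.ne d)), ← Complex.exp_conj, ← Complex.exp_add]
    congr 2
    fin_cases x <;> simp [map_ofNat] <;> ring
  rw [this, S_diff]
  by_cases h : a = a'
  · simp [h, hd]
  · simp [h]

lemma G_low (t : ℝ) (h : Real.cos (2 * Real.pi * t) = 0) (c : ℝ) (_hc : 0 ≤ c) (ht : c * (20 * t ^ 2) ≤ 1)
    (ht0 : t ≠ 0) : c ≤ ‖S d t‖ ^ 2 / (d : ℝ) ^ 2 := by
  have hd := dpos (d := d)
  have h1 := S_low (d := d) t h
  have hpi : Real.pi ^ 2 ≤ 10 := by nlinarith [Real.pi_lt_d2, Real.pi_pos]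
  have e : ‖S d t‖ ^ 2 * (2 * Real.pi * t / d) ^ 2 = (‖S d t‖ ^ 2 / (d : ℝ) ^ 2) * (4 * Real.pi ^ 2 * t ^ 2) := by
    field_simp; ring
  rw [e] at h1
  set g := ‖S d t‖ ^ 2 / (d : ℝ) ^ 2
  have hg : 0 ≤ g := by positivity
  have ht2 : 0 < t ^ 2 := by positivity
  have h2 : g * (4 * Real.pi ^ 2 * t ^ 2) ≤ g * (4 * 10 * t ^ 2) := by gcongr
  by_contra hlt
  push Not at hlt
  have : g * (20 * t ^ 2) < c * (20 * t ^ 2) := by gcongr
  linarith

lemma dkz_local (hd2 : 2 ≤ d) (v : ℝ) (hv : 0 ≤ v) (hv1 : v ≤ 121 / 200) :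
    IsLocal (beh (dkzA d) (dkzB d) v) := by
  have hd := dpos (d := d)
  have hb : beh (dkzA d) (dkzB d) v = fun x y a b =>
      v * ((‖S d (((a - b : Fin d) : ℕ) + th x y)‖ ^ 2 / (d : ℝ) ^ 2) / d) + (1 - v) / (d : ℝ) ^ 2 := by
    ext x y a b
    rw [beh_eq (by omega) _ _ _ _ _ _ _ (by simpa using dkzA_onb x a a) (by simpa using dkzB_onb y b b), dkz_sum]
    simp only [norm_mul, norm_div, norm_one, Complex.norm_natCast]
    field_simp
  rw [hb]
  have h1 : ((1 : Fin d) : ℕ) = 1 := by rw [Fin.val_one']; exact Nat.mod_eq_of_lt (by omega)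
  have h10 : (1 : Fin d) ≠ 0 := by intro h; have := congrArg Fin.val h; rw [h1] at this; simp at this
  have hm1 : (((-1 : Fin d) : ℕ) : ℝ) = d - 1 := by
    rw [Fin.val_neg, if_neg h10, h1, Nat.cast_sub (by omega)]; simp
  have per : ∀ t : ℝ, S d (d - 1 + t) = S d (t - 1) := by
    intro t
    have := S_per (d := d) (t - 1) 1
    rw [← this]; congr 1; push_cast; ring
  have c1 : Real.cos (2 * Real.pi * (1 / 4)) = 0 := by
    rw [show 2 * Real.pi * (1 / 4) = Real.pi / 2 by ring, Real.cos_pi_div_two]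
  have c2 : Real.cos (2 * Real.pi * (-1 / 4)) = 0 := by
    rw [show 2 * Real.pi * (-1 / 4) = -(Real.pi / 2) by ring, Real.cos_neg, Real.cos_pi_div_two]
  have c3 : Real.cos (2 * Real.pi * (3 / 4)) = 0 := by
    rw [show 2 * Real.pi * (3 / 4) = Real.pi / 2 + Real.pi by ring, Real.cos_add_pi, Real.cos_pi_div_two, neg_zero]
  have c4 : Real.cos (2 * Real.pi * (-3 / 4)) = 0 := by
    rw [show 2 * Real.pi * (-3 / 4) = -(2 * Real.pi * (3 / 4)) by ring, Real.cos_neg, c3]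
  have g1 := G_low (d := d) _ c1 (3 * (2 / 23)) (by norm_num) (by norm_num) (by norm_num)
  have g2 := G_low (d := d) _ c2 (3 * (2 / 23)) (by norm_num) (by norm_num) (by norm_num)
  have g3 := G_low (d := d) _ c3 (2 / 23) (by norm_num) (by norm_num) (by norm_num)
  have g4 := G_low (d := d) _ c4 (2 / 23) (by norm_num) (by norm_num) (by norm_num)
  refine model_local (fun x y e => ‖S d ((e : ℕ) + th x y)‖ ^ 2 / (d : ℝ) ^ 2)
    ![![0, -1], ![0, 0]] ![![-1, 0], ![1, -1]] (2 / 23) v (by norm_num) (by norm_num) hv (by linarith)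
    (fun _ _ _ => by positivity) ?_ ?_ ?_ ?_ ?_
  · intro x y
    rw [← Finset.sum_div, S_parseval]
    field_simp
  · intro x y
    fin_cases x <;> fin_cases y
    · simpa [th] using g1
    · have : S d (d - 1 + 3 / 4) = S d (-1 / 4) := by rw [per]; norm_num
      simpa [th, hm1, this] using g2
    · simpa [th] using g2
    · simpa [th] using g1
  · intro x y
    have e : S d (d - 1 + 1 / 4) = S d (-3 / 4) := by rw [per]; norm_num
    fin_cases x <;> fin_cases y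
    · simpa [th, hm1, e, -one_div] using g4
    · simpa [th] using g3
    · have : (1 : ℝ) + -1 / 4 = 3 / 4 := by norm_num
      have h1' : 1 % d = 1 := Nat.mod_eq_of_lt (by omega)
      simpa [th, h1', this] using g3
    · simpa [th, hm1, e, -one_div] using g4
  · intro x y
    fin_cases x <;> fin_cases y <;> simp [h10, h10.symm]
  · intro x y
    fin_cases x <;> fin_cases y <;> simp

end Pool.Agent.H.MP_e6e34a_mp
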