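import Pool.Agent.H.MP_e6e34a_mp.C

set_option autoImplicit false

namespace Pool.Agent.H.MP_e6e34a_mp

open Matrix Complex

/-- rotation -/
def rot (c s : ℝ) : Fin 2 → Fin 2 → ℝ := ![![c, s], ![-s, c]]

noncomputable def UA : Fin 2 → Fin 2 → Fin 2 → ℝ := ![rot 1 0, rot (119 / 169) (120 / 169)]
noncomputable def UB : Fin 2 → Fin 2 → Fin 2 → ℝ := ![rot (12 / 13) (5 / 13), rot (12 / 13) (-5 / 13)]

noncomputable def bits {n : ℕ} (a : Fin (2 ^ n)) : Fin n → Fin 2 := finFunctionFinEquiv.symm a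

noncomputable def tens (n : ℕ) (U : Fin 2 → Fin 2 → Fin 2 → ℝ) : Fin 2 → Fin (2 ^ n) → Fin (2 ^ n) → ℂ :=
  fun x a j => ((∏ i, U x (bits a i) (bits j i) : ℝ) : ℂ)

lemma sum_bits {n : ℕ} (F : Fin n → Fin 2 → ℝ) :
    ∑ j : Fin (2 ^ n), ∏ i, F i (bits j i) = ∏ i, ∑ t, F i t := by
  rw [Finset.prod_univ_sum, Fintype.piFinset_univ]
  exact Equiv.sum_comp finFunctionFinEquiv.symm (fun z : Fin n → Fin 2 => ∏ i, F i (z i))

lemma tens_sum {n : ℕ} (U W : Fin 2 → Fin 2 → Fin 2 → ℝ) (x y : Fin 2) (a b : Fin (2 ^ n)) :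
    ∑ j, tens n U x a j * tens n W y b j = ((∏ i, ∑ t, U x (bits a i) t * W y (bits b i) t : ℝ) : ℂ) := by
  rw [← sum_bits (fun i t => U x (bits a i) t * W y (bits b i) t)]
  simp only [tens, ← Complex.ofReal_mul, ← Finset.prod_mul_distrib]
  push_cast
  rfl

lemma tens_onb {n : ℕ} (U : Fin 2 → Fin 2 → Fin 2 → ℝ) (x : Fin 2)
    (h : ∀ s s', ∑ t, U x s t * U x s' t = if s = s' then 1 else 0) : IsONB (tens n U x) := by
  intro a a'
  have : star (tens n U x a) = tens n U x a := by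
    ext j
    simp only [Pi.star_apply, tens, Complex.star_def, Complex.conj_ofReal]
  rw [this, dotProduct, tens_sum]
  simp only [h]
  by_cases ha : a = a'
  · simp [ha]
  · rw [if_neg ha]
    have : ∃ i, bits a i ≠ bits a' i := by
      by_contra hc
      push Not at hc
      exact ha (finFunctionFinEquiv.symm.injective (funext hc))
    obtain ⟨i, hi⟩ := this
    rw [Finset.prod_eq_zero (Finset.mem_univ i) (if_neg hi)]
    simp

lemma UA_on (x : Fin 2) : ∀ s s', ∑ t, UA x s t * UA x s' t = if s = s' then 1 else 0 := by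
  intro s s'
  fin_cases x <;> fin_cases s <;> fin_cases s' <;> simp [UA, rot] <;> norm_num

lemma UB_on (x : Fin 2) : ∀ s s', ∑ t, UB x s t * UB x s' t = if s = s' then 1 else 0 := by
  intro s s'
  fin_cases x <;> fin_cases s <;> fin_cases s' <;> simp [UB, rot] <;> norm_num

/-- CHSH game predicate as a number -/
def win (x y s t : Fin 2) : ℝ := if s + t = x * y then 1 else 0

lemma win_le (s t : Fin 2 → Fin 2) : ∑ x, ∑ y, win x y (s x) (t y) ≤ 3 := by
  simp only [Fin.sum_univ_two, win]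
  generalize s 0 = a, s 1 = b, t 0 = c, t 1 = e
  fin_cases a <;> fin_cases b <;> fin_cases c <;> fin_cases e <;> simp <;> norm_num

noncomputable def q1 (x y s t : Fin 2) : ℝ := (∑ k, UA x s k * UB y t k) ^ 2 / 2

noncomputable def sc (n : ℕ) (x y : Fin 2) (a b : Fin (2 ^ n)) : ℝ := ∑ i, win x y (bits a i) (bits b i)

noncomputable def ff (n : ℕ) (m : ℝ) : ℝ := (if 21 / 25 * (n : ℝ) ≤ m then 1 else 0) - (if m ≤ 12 / 25 * (n : ℝ) then 1 else 0)

lemma bell {n : ℕ} (hn : 0 < n) (f g : Fin 2 → Fin (2 ^ n)) : ∑ x, ∑ y, ff n (sc n x y (f x) (g y)) ≤ 2 := by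
  have h : ∑ x, ∑ y, sc n x y (f x) (g y) ≤ 3 * n := by
    have : ∑ x, ∑ y, sc n x y (f x) (g y) = ∑ i : Fin n, ∑ x, ∑ y, win x y (bits (f x) i) (bits (g y) i) := by
      simp only [sc, Fin.sum_univ_two, Finset.sum_add_distrib]
    rw [this]
    calc _ ≤ ∑ _i : Fin n, (3 : ℝ) :=
          Finset.sum_le_sum fun i _ => win_le (fun x => bits (f x) i) (fun y => bits (g y) i)
      _ = _ := by simp [mul_comm]
  have hn' : (0 : ℝ) < n := by exact_mod_cast hn
  simp only [Fin.sum_univ_two] at h ⊢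
  generalize sc n 0 0 (f 0) (g 0) = a, sc n 0 1 (f 0) (g 1) = b, sc n 1 0 (f 1) (g 0) = c,
    sc n 1 1 (f 1) (g 1) = e at h
  unfold ff
  split_ifs <;> linarith

lemma mgf {n : ℕ} (q : Fin 2 → Fin 2 → ℝ) (x y : Fin 2) (θ : ℝ) :
    ∑ a : Fin (2 ^ n), ∑ b : Fin (2 ^ n), (∏ i, q (bits a i) (bits b i)) *
      Real.exp (1 / 100 * (θ * n - sc n x y a b)) =
    (∑ s, ∑ t, q s t * Real.exp (1 / 100 * (θ - win x y s t))) ^ n := by
  have : ∀ a b : Fin (2 ^ n), (∏ i, q (bits a i) (bits b i)) * Real.exp (1 / 100 * (θ * n - sc n x y a b)) =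
      ∏ i, q (bits a i) (bits b i) * Real.exp (1 / 100 * (θ - win x y (bits a i) (bits b i))) := by
    intro a b
    rw [Finset.prod_mul_distrib, ← Real.exp_sum, ← Finset.mul_sum, Finset.sum_sub_distrib]
    simp [sc, mul_comm]
  simp only [this]
  have h2 : ∀ a : Fin (2 ^ n), ∑ b : Fin (2 ^ n),
      ∏ i, q (bits a i) (bits b i) * Real.exp (1 / 100 * (θ - win x y (bits a i) (bits b i))) =
      ∏ i, ∑ t, q (bits a i) t * Real.exp (1 / 100 * (θ - win x y (bits a i) t)) := fun a =>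
    sum_bits (fun i t => q (bits a i) t * Real.exp (1 / 100 * (θ - win x y (bits a i) t)))
  simp only [h2]
  rw [sum_bits (fun _ s => ∑ t, q s t * Real.exp (1 / 100 * (θ - win x y s t)))]
  simp

lemma tot {n : ℕ} (q : Fin 2 → Fin 2 → ℝ) :
    ∑ a : Fin (2 ^ n), ∑ b : Fin (2 ^ n), (∏ i, q (bits a i) (bits b i)) = (∑ s, ∑ t, q s t) ^ n := by
  have h2 : ∀ a : Fin (2 ^ n), ∑ b : Fin (2 ^ n), ∏ i, q (bits a i) (bits b i) = ∏ i, ∑ t, q (bits a i) t :=
    fun a => sum_bits (fun i t => q (bits a i) t)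
  simp only [h2]
  rw [sum_bits (fun _ s => ∑ t, q s t)]
  simp

lemma exp_le (z : ℝ) (h : |z| ≤ 1) : Real.exp z ≤ 1 + z + z ^ 2 := by
  have := Real.abs_exp_sub_one_sub_id_le h
  linarith [(abs_le.1 this).2]

lemma baseQ (x y : Fin 2) :
    ∑ s, ∑ t, q1 x y s t * Real.exp (1 / 100 * (21 / 25 - win x y s t)) ≤ 99999 / 100000 := by
  have h1 := exp_le (1 / 100 * (21 / 25 - 1)) (by norm_num [abs_le])
  have h2 := exp_le (1 / 100 * (21 / 25 - 0)) (by norm_num [abs_le])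
  fin_cases x <;> fin_cases y <;> simp [q1, win, UA, UB, rot] at h1 h2 ⊢ <;> norm_num at h1 h2 ⊢ <;> linarith

lemma baseU (x y : Fin 2) :
    ∑ s, ∑ t, (1 / 4 : ℝ) * Real.exp (1 / 100 * (12 / 25 - win x y s t)) ≤ 99999 / 100000 := by
  have h1 := exp_le (1 / 100 * (12 / 25 - 1)) (by norm_num [abs_le])
  have h2 := exp_le (1 / 100 * (12 / 25 - 0)) (by norm_num [abs_le])
  fin_cases x <;> fin_cases y <;> simp [win] at h1 h2 ⊢ <;> norm_num at h1 h2 ⊢ <;> linarith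

lemma q1_tot (x y : Fin 2) : ∑ s, ∑ t, q1 x y s t = 1 := by
  fin_cases x <;> fin_cases y <;> simp [q1, UA, UB, rot] <;> norm_num

end Pool.Agent.H.MP_e6e34a_mp
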