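import Mathlib

set_option autoImplicit false

namespace Pool.Agent.H.MP_e6e34a_mp

open Matrix Complex
open scoped Kronecker

/-- behaviours p x y a b = p(a,b|x,y); local = convex hull of deterministic ones -/
def IsLocal {d : ℕ} (p : Fin 2 → Fin 2 → Fin d → Fin d → ℝ) : Prop :=
  p ∈ convexHull ℝ {q : Fin 2 → Fin 2 → Fin d → Fin d → ℝ |
    ∃ f g : Fin 2 → Fin d, q = fun x y a b => if a = f x ∧ b = g y then 1 else 0}

/-- the maximally entangled vector -/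
noncomputable def phi (d : ℕ) : Fin d × Fin d → ℂ :=
  fun j => if j.1 = j.2 then ((1 / √(d : ℝ) : ℝ) : ℂ) else 0

/-- the isotropic state -/
noncomputable def rho (d : ℕ) (v : ℝ) : Matrix (Fin d × Fin d) (Fin d × Fin d) ℂ :=
  (v : ℂ) • vecMulVec (phi d) (star (phi d)) + (((1 - v) / (d : ℝ) ^ 2 : ℝ) : ℂ) • 1

/-- d orthonormal vectors u a of C^d -/
def IsONB {d : ℕ} (u : Fin d → Fin d → ℂ) : Prop :=
  ∀ a a', star (u a) ⬝ᵥ u a' = if a = a' then 1 else 0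

/-- the quantum behaviour -/
noncomputable def beh {d : ℕ} (u w : Fin 2 → Fin d → Fin d → ℂ) (v : ℝ) :
    Fin 2 → Fin 2 → Fin d → Fin d → ℝ :=
  fun x y a b => (trace (rho d v *
    (vecMulVec (u x a) (star (u x a)) ⊗ₖ vecMulVec (w y b) (star (w y b))))).re

/-- critical visibility -/
noncomputable def vstar {d : ℕ} (u w : Fin 2 → Fin d → Fin d → ℂ) : ℝ :=
  sSup {v : ℝ | v ∈ Set.Icc (0 : ℝ) 1 ∧ IsLocal (beh u w v)}

noncomputable def dkzA (d : ℕ) : Fin 2 → Fin d → Fin d → ℂ :=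
  fun x k j => ((1 / √(d : ℝ) : ℝ) : ℂ) *
    exp (-2 * Real.pi * I * (j : ℕ) * ((k : ℕ) + (![1 / 2, 0] : Fin 2 → ℂ) x) / d)

noncomputable def dkzB (d : ℕ) : Fin 2 → Fin d → Fin d → ℂ :=
  fun y l j => ((1 / √(d : ℝ) : ℝ) : ℂ) *
    exp (2 * Real.pi * I * (j : ℕ) * ((l : ℕ) - (![-1 / 4, 1 / 4] : Fin 2 → ℂ) y) / d)

end Pool.Agent.H.MP_e6e34a_mp
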