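import Pool.Agent.H.MP_e6e34a_mp.D

set_option autoImplicit false

namespace Pool.Agent.H.MP_e6e34a_mp

open Matrix Complex

lemma tens_beh {n : ℕ} (v : ℝ) (x y : Fin 2) (a b : Fin (2 ^ n)) :
    beh (tens n UA) (tens n UB) v x y a b =
      v * (∏ i, q1 x y (bits a i) (bits b i)) + (1 - v) * ∏ _i : Fin n, (1 / 4 : ℝ) := by
  rw [beh_eq (by positivity) _ _ _ _ _ _ _ (by simpa using tens_onb UA x (UA_on x) a a)
    (by simpa using tens_onb UB y (UB_on y) b b), tens_sum, Complex.norm_real, Real.norm_eq_abs, sq_abs]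
  congr 1
  · congr 1
    simp only [q1, Finset.prod_div_distrib, Finset.prod_pow]
    simp
  · simp only [Finset.prod_const, Finset.card_univ, Fintype.card_fin]
    push_cast
    rw [← pow_mul, mul_comm n 2, pow_mul, _root_.one_div_pow]
    norm_num
    ring

lemma ff_Q {n : ℕ} (hn : 0 < n) (m : ℝ) : 1 - 2 * Real.exp (1 / 100 * (21 / 25 * n - m)) ≤ ff n m := by
  have hn' : (0 : ℝ) < n := by exact_mod_cast hn
  have h0 := Real.exp_pos (1 / 100 * (21 / 25 * n - m))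
  have h1 := Real.add_one_le_exp (1 / 100 * (21 / 25 * n - m))
  unfold ff
  split_ifs <;> linarith

lemma ff_U {n : ℕ} (m : ℝ) : - Real.exp (1 / 100 * (12 / 25 * n - m)) ≤ ff n m := by
  have h0 := Real.exp_pos (1 / 100 * (12 / 25 * n - m))
  have h1 := Real.add_one_le_exp (1 / 100 * (12 / 25 * n - m))
  unfold ff
  split_ifs <;> linarith

lemma val_ge {n : ℕ} (hn : 0 < n) (he : (99999 / 100000 : ℝ) ^ n ≤ 1 / 50) (v : ℝ) (hv : 3 / 5 ≤ v) (hv1 : v ≤ 1)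
    (x y : Fin 2) :
    (1 / 2 : ℝ) < ∑ a, ∑ b, beh (tens n UA) (tens n UB) v x y a b * ff n (sc n x y a b) := by
  have hq : ∀ a b : Fin (2 ^ n), 0 ≤ ∏ i, q1 x y (bits a i) (bits b i) := fun a b =>
    Finset.prod_nonneg fun i _ => by unfold q1; positivity
  have hQ : 1 - 2 * (1 / 50 : ℝ) ≤ ∑ a : Fin (2 ^ n), ∑ b : Fin (2 ^ n),
      (∏ i, q1 x y (bits a i) (bits b i)) * ff n (sc n x y a b) := by
    have h1 := mgf (n := n) (q1 x y) x y (21 / 25)
    have h2 := tot (n := n) (q1 x y)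
    rw [q1_tot, one_pow] at h2
    have h3 : (∑ s, ∑ t, q1 x y s t * Real.exp (1 / 100 * (21 / 25 - win x y s t))) ^ n ≤ 1 / 50 := by
      refine le_trans (pow_le_pow_left₀ ?_ (baseQ x y) n) he
      exact Finset.sum_nonneg fun _ _ => Finset.sum_nonneg fun _ _ => by unfold q1; positivity
    calc 1 - 2 * (1 / 50 : ℝ) ≤ ∑ a : Fin (2 ^ n), ∑ b : Fin (2 ^ n), (∏ i, q1 x y (bits a i) (bits b i)) -
          2 * ∑ a : Fin (2 ^ n), ∑ b : Fin (2 ^ n), (∏ i, q1 x y (bits a i) (bits b i)) *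
            Real.exp (1 / 100 * (21 / 25 * n - sc n x y a b)) := by rw [h1, h2]; linarith
      _ = ∑ a : Fin (2 ^ n), ∑ b : Fin (2 ^ n), (∏ i, q1 x y (bits a i) (bits b i)) *
            (1 - 2 * Real.exp (1 / 100 * (21 / 25 * n - sc n x y a b))) := by
          simp only [Finset.mul_sum, ← Finset.sum_sub_distrib]
          refine Finset.sum_congr rfl fun a _ => Finset.sum_congr rfl fun b _ => by ring
      _ ≤ _ := Finset.sum_le_sum fun a _ => Finset.sum_le_sum fun b _ =>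
          mul_le_mul_of_nonneg_left (ff_Q hn _) (hq a b)
  have hU : - (1 / 50 : ℝ) ≤ ∑ a : Fin (2 ^ n), ∑ b : Fin (2 ^ n),
      (∏ _i : Fin n, (1 / 4 : ℝ)) * ff n (sc n x y a b) := by
    have h1 := mgf (n := n) (fun _ _ => (1 / 4 : ℝ)) x y (12 / 25)
    have h3 : (∑ s, ∑ t, (1 / 4 : ℝ) * Real.exp (1 / 100 * (12 / 25 - win x y s t))) ^ n ≤ 1 / 50 := by
      refine le_trans (pow_le_pow_left₀ ?_ (baseU x y) n) he
      exact Finset.sum_nonneg fun _ _ => Finset.sum_nonneg fun _ _ => by positivity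
    calc - (1 / 50 : ℝ) ≤ - ∑ a : Fin (2 ^ n), ∑ b : Fin (2 ^ n), (∏ _i : Fin n, (1 / 4 : ℝ)) *
            Real.exp (1 / 100 * (12 / 25 * n - sc n x y a b)) := by rw [h1]; linarith
      _ = ∑ a : Fin (2 ^ n), ∑ b : Fin (2 ^ n), (∏ _i : Fin n, (1 / 4 : ℝ)) *
            (- Real.exp (1 / 100 * (12 / 25 * n - sc n x y a b))) := by
          simp only [← Finset.sum_neg_distrib, mul_neg]
      _ ≤ _ := Finset.sum_le_sum fun a _ => Finset.sum_le_sum fun b _ =>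
          mul_le_mul_of_nonneg_left (ff_U _) (by positivity)
  have e : ∑ a, ∑ b, beh (tens n UA) (tens n UB) v x y a b * ff n (sc n x y a b) =
      v * (∑ a : Fin (2 ^ n), ∑ b : Fin (2 ^ n), (∏ i, q1 x y (bits a i) (bits b i)) * ff n (sc n x y a b)) +
      (1 - v) * ∑ a : Fin (2 ^ n), ∑ b : Fin (2 ^ n), (∏ _i : Fin n, (1 / 4 : ℝ)) * ff n (sc n x y a b) := by
    simp only [tens_beh, Finset.mul_sum, ← Finset.sum_add_distrib]
    refine Finset.sum_congr rfl fun a _ => Finset.sum_congr rfl fun b _ => by ring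
  rw [e]
  nlinarith [mul_le_mul_of_nonneg_left hQ (by linarith : 0 ≤ v), mul_le_mul_of_nonneg_left hU (by linarith : 0 ≤ 1 - v)]

lemma tens_nonlocal {n : ℕ} (hn : 0 < n) (he : (99999 / 100000 : ℝ) ^ n ≤ 1 / 50) (v : ℝ) (hv : 3 / 5 ≤ v)
    (hv1 : v ≤ 1) : ¬ IsLocal (beh (tens n UA) (tens n UB) v) := by
  intro h
  have h1 := local_bound (fun x y a b => ff n (sc n x y a b)) 2 (bell hn) _ h
  simp only [Fin.sum_univ_two] at h1
  linarith [val_ge hn he v hv hv1 0 0, val_ge hn he v hv hv1 0 1, val_ge hn he v hv hv1 1 0,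
    val_ge hn he v hv hv1 1 1]

lemma zero_local {d : ℕ} [NeZero d] (u w : Fin 2 → Fin d → Fin d → ℂ) (h : ∀ x, IsONB (u x) ∧ IsONB (w x)) :
    IsLocal (beh u w 0) := by
  have hd := dpos (d := d)
  have L := half_local (d := d) 0 (fun _ _ => (1 / d : ℝ)) (fun _ _ => by positivity) (fun _ => by simp)
  convert L using 5 with x y a b
  rw [beh_eq (Nat.pos_of_ne_zero (NeZero.ne d)) _ _ _ _ _ _ _ (by simpa using (h x).1 a a)
    (by simpa using (h y).2 b b)]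
  split_ifs <;> field_simp <;> ring

theorem main : ∃ N : ℕ, ∀ n : ℕ, N ≤ n → 4 ≤ 2 ^ n ∧
    (∀ x, IsONB (dkzA (2 ^ n) x) ∧ IsONB (dkzB (2 ^ n) x)) ∧
    ∃ u w : Fin 2 → Fin (2 ^ n) → Fin (2 ^ n) → ℂ, (∀ x, IsONB (u x) ∧ IsONB (w x)) ∧
      IsLocal (beh u w 0) ∧ (∀ v : ℝ, 3 / 5 ≤ v → v ≤ 1 → ¬ IsLocal (beh u w v)) ∧
      (∀ v : ℝ, 0 ≤ v → v ≤ 121 / 200 → IsLocal (beh (dkzA (2 ^ n)) (dkzB (2 ^ n)) v)) ∧
      vstar u w < vstar (dkzA (2 ^ n)) (dkzB (2 ^ n)) := by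
  obtain ⟨N, hN⟩ := exists_pow_lt_of_lt_one (show (0 : ℝ) < 1 / 50 by norm_num)
    (show (99999 / 100000 : ℝ) < 1 by norm_num)
  refine ⟨max N 2, fun n hn => ?_⟩
  have h2 : 2 ≤ n := le_trans (le_max_right _ _) hn
  have h4 : 4 ≤ 2 ^ n := by
    calc 4 = 2 ^ 2 := by norm_num
      _ ≤ 2 ^ n := Nat.pow_le_pow_right (by norm_num) h2
  have he : (99999 / 100000 : ℝ) ^ n ≤ 1 / 50 :=
    le_trans (pow_le_pow_of_le_one (by norm_num) (by norm_num) (le_trans (le_max_left _ _) hn)) hN.le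
  have : NeZero (2 ^ n) := ⟨by positivity⟩
  have hA := tens_nonlocal (n := n) (by omega) he
  have hB := dkz_local (d := 2 ^ n) (by omega)
  refine ⟨h4, fun x => ⟨dkzA_onb x, dkzB_onb x⟩, tens n UA, tens n UB,
    fun x => ⟨tens_onb UA x (UA_on x), tens_onb UB x (UB_on x)⟩,
    zero_local _ _ fun x => ⟨tens_onb UA x (UA_on x), tens_onb UB x (UB_on x)⟩, hA, hB, ?_⟩
  have h1 : vstar (tens n UA) (tens n UB) ≤ 3 / 5 := by
    apply Real.sSup_le _ (by norm_num)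
    rintro v ⟨hv, hl⟩
    by_contra hc
    exact hA v (by linarith) hv.2 hl
  have h3 : 121 / 200 ≤ vstar (dkzA (2 ^ n)) (dkzB (2 ^ n)) :=
    le_csSup ⟨1, fun v hv => hv.1.2⟩ ⟨⟨by norm_num, by norm_num⟩, hB _ (by norm_num) le_rfl⟩
  linarith

end Pool.Agent.H.MP_e6e34a_mp
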